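import Pool.Agent.E8helper39.AX_C2
import Pool.Agent.E8helper64.AX.AX_C1

/-! AX piece C2G (project AX of helper80, MP_cfebfb_ag): general `M ≤ 9`. -/

open Polynomial

namespace Pool.Agent.E8helper62.AXG

open Pool.Agent.E8helper39.AX

noncomputable section

/-- A pair of compatible structures, up to order `N`. -/
structure GoodN (N m h : ℕ) (R G : PowerSeries ℚ[X]) : Prop where
  dR : ∀ i, (PowerSeries.coeff i R).natDegree ≤ i
  dG : ∀ t, (PowerSeries.coeff t G).natDegree ≤ t - 1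
  cmp : ∀ i ≤ N, ∀ t ≤ N, PowerSeries.coeff t (CC (1 - PowerSeries.X) U m R i) =
    PowerSeries.coeff i (CC (1 + PowerSeries.X) V h G t)

theorem GoodN.mul {N m h m' h' : ℕ} {R G R' G' : PowerSeries ℚ[X]} (H : GoodN N m h R G)
    (H' : GoodN N m' h' R' G') : GoodN N (m + m') (h + h') (R * R') (G * G') := by
  refine ⟨?_, ?_, ?_⟩
  · intro i
    rw [PowerSeries.coeff_mul]
    refine Polynomial.natDegree_sum_le_of_forall_le _ _ fun p hp => ?_
    have h2 : p.1 + p.2 = i := Finset.HasAntidiagonal.mem_antidiagonal.mp hp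
    refine Polynomial.natDegree_mul_le.trans ?_
    have := H.dR p.1
    have := H'.dR p.2
    omega
  · intro i
    rw [PowerSeries.coeff_mul]
    refine Polynomial.natDegree_sum_le_of_forall_le _ _ fun p hp => ?_
    have h2 : p.1 + p.2 = i := Finset.HasAntidiagonal.mem_antidiagonal.mp hp
    refine Polynomial.natDegree_mul_le.trans ?_
    have := H.dG p.1
    have := H'.dG p.2
    omega
  · intro i hi t ht
    rw [CC_mul, CC_mul, map_sum, map_sum]
    simp_rw [PowerSeries.coeff_mul]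
    rw [Finset.sum_comm]
    refine Finset.sum_congr rfl fun p hp => Finset.sum_congr rfl fun r hr => ?_
    have h2 : p.1 + p.2 = t := Finset.HasAntidiagonal.mem_antidiagonal.mp hp
    have h3 : r.1 + r.2 = i := Finset.HasAntidiagonal.mem_antidiagonal.mp hr
    rw [H.cmp r.1 (by omega) p.1 (by omega), H'.cmp r.2 (by omega) p.2 (by omega)]

theorem GoodN.one (N : ℕ) : GoodN N 0 0 1 1 := by
  refine ⟨Good.one.dR, Good.one.dG, ?_⟩
  intro i _ t _
  unfold Pool.Agent.E8helper39.AX.CC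
  rw [PowerSeries.coeff_one, PowerSeries.coeff_one]
  by_cases hi : i = 0
  · by_cases ht : t = 0
    · subst hi; subst ht; simp
    · subst hi
      simp [ht, PowerSeries.coeff_one]
  · by_cases ht : t = 0
    · subst ht
      simp [hi, PowerSeries.coeff_one]
    · simp [hi, ht]

theorem GoodN.pow {N m h : ℕ} {R G : PowerSeries ℚ[X]} (H : GoodN N m h R G) (n : ℕ) :
    GoodN N (n * m) (n * h) (R ^ n) (G ^ n) := by
  induction n with
  | zero => simpa using GoodN.one N
  | succ n ih =>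
    rw [Nat.succ_mul, Nat.succ_mul, pow_succ, pow_succ]
    exact ih.mul H

/-- the whole numerical check, up to order `N` -/
def chkN (N m : ℕ) (T S : List (List ℤ)) : Bool :=
  ((List.range (N + 1)).all fun i =>
    eqL (mulL (powL [1, -1] m) (T.getD i [])) (mulL (powL [1, -1] (2 * i)) (colL m i)) &&
    eqL (mulL (powL [1, 1] (m + 1)) (S.getD i [])) (mulL (powL [1, 1] (2 * i)) (rowL m i)) &&
    decide ((T.getD i []).length ≤ i + 1) && decide ((S.getD i []).length ≤ i - 1 + 1) &&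
    ((List.range (N + 1)).all fun t => (colL m i).getD t 0 == (rowL m t).getD i 0)) &&
  decide (T.length = N + 1) && decide (S.length = N + 1)

theorem good_ofN (N m : ℕ) (T S : List (List ℤ)) (h : chkN N m T S = true) :
    GoodN N m (m + 1) (RR T) (RR S) := by
  unfold chkN at h
  simp only [Bool.and_eq_true, List.all_eq_true, List.mem_range, decide_eq_true_eq,
    beq_iff_eq] at h
  obtain ⟨⟨h1, hT⟩, hS⟩ := h
  have e1 : pol [1, -1] = 1 - X := by
    simp [pol]
    ring
  have e2 : pol [1, 1] = 1 + X := by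
    simp [pol]
  refine ⟨?_, ?_, ?_⟩
  · intro i
    rw [coeff_RR]
    by_cases hi : i < N + 1
    · have := (h1 i hi).1.1.2
      exact (pol_deg _).trans (by omega)
    · rw [List.getD_eq_default _ _ (by omega)]
      simp [pol]
  · intro i
    rw [coeff_RR]
    by_cases hi : i < N + 1
    · have := (h1 i hi).1.2
      exact (pol_deg _).trans (by omega)
    · rw [List.getD_eq_default _ _ (by omega)]
      simp [pol]
  · intro i hi j hj
    rw [CC_eq (1 - X) (1 - PowerSeries.X) U hQ1 U_spec m i (RR T) (pol (colL m i)),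
      CC_eq (1 + X) (1 + PowerSeries.X) V hQ2 V_spec (m + 1) j (RR S) (pol (rowL m j))]
    · rw [Polynomial.coeff_coe, Polynomial.coeff_coe, pol_coeff, pol_coeff,
        (h1 i (by omega)).2 j (by omega)]
    · rw [coeff_RR]
      have := pol_eqL (h1 j (by omega)).1.1.1.2
      rw [pol_mulL, pol_mulL, pol_powL, pol_powL, e2] at this
      exact this
    · rw [coeff_RR]
      have := pol_eqL (h1 i (by omega)).1.1.1.1
      rw [pol_mulL, pol_mulL, pol_powL, pol_powL, e1] at this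
      exact this

/-- `rho` tables -/
def tT : ℕ → List (List ℤ)
  | 1 => [[1],
   [2, -2]]
  | 2 => [[1],
   [3, -2],
   [3, -6, 3]]
  | 3 => [[1],
   [4, -2],
   [6, -9, 3],
   [4, -12, 12, -4]]
  | 4 => [[1],
   [5, -2],
   [10, -12, 3],
   [10, -24, 18, -4],
   [5, -20, 30, -20, 5]]
  | 5 => [[1],
   [6, -2],
   [15, -15, 3],
   [20, -40, 24, -4],
   [15, -50, 60, -30, 5],
   [6, -30, 60, -60, 30, -6]]
  | 6 => [[1],
   [7, -2],
   [21, -18, 3],
   [35, -60, 30, -4],
   [35, -100, 100, -40, 5],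
   [21, -90, 150, -120, 45, -6],
   [7, -42, 105, -140, 105, -42, 7]]
  | 7 => [[1],
   [8, -2],
   [28, -21, 3],
   [56, -84, 36, -4],
   [70, -175, 150, -50, 5],
   [56, -210, 300, -200, 60, -6],
   [28, -147, 315, -350, 210, -63, 7],
   [8, -56, 168, -280, 280, -168, 56, -8]]
  | 8 => [[1],
   [9, -2],
   [36, -24, 3],
   [84, -112, 42, -4],
   [126, -280, 210, -60, 5],
   [126, -420, 525, -300, 75, -6],
   [84, -392, 735, -700, 350, -84, 7],
   [36, -224, 588, -840, 700, -336, 84, -8],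
   [9, -72, 252, -504, 630, -504, 252, -72, 9]]
  | 9 => [[1],
   [10, -2],
   [45, -27, 3],
   [120, -144, 48, -4],
   [210, -420, 280, -70, 5],
   [252, -756, 840, -420, 90, -6],
   [210, -882, 1470, -1225, 525, -105, 7],
   [120, -672, 1568, -1960, 1400, -560, 112, -8],
   [45, -324, 1008, -1764, 1890, -1260, 504, -108, 9],
   [10, -90, 360, -840, 1260, -1260, 840, -360, 90, -10]]
  | 10 => [[1],
   [11, -2],
   [55, -30, 3],
   [165, -180, 54, -4],
   [330, -600, 360, -80, 5],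
   [462, -1260, 1260, -560, 105, -6],
   [462, -1764, 2646, -1960, 735, -126, 7],
   [330, -1680, 3528, -3920, 2450, -840, 140, -8],
   [165, -1080, 3024, -4704, 4410, -2520, 840, -144, 9],
   [55, -450, 1620, -3360, 4410, -3780, 2100, -720, 135, -10]]
  | _ => []

/-- `g` tables -/
def tS : ℕ → List (List ℤ)
  | 1 => [[1],
   [-1]]
  | 2 => [[1],
   [-2],
   [1, 1]]
  | 3 => [[1],
   [-3],
   [3, 2],
   [-1, -2, -1]]
  | 4 => [[1],
   [-4],
   [6, 3],
   [-4, -6, -2],
   [1, 3, 3, 1]]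
  | 5 => [[1],
   [-5],
   [10, 4],
   [-10, -12, -3],
   [5, 12, 9, 2],
   [-1, -4, -6, -4, -1]]
  | 6 => [[1],
   [-6],
   [15, 5],
   [-20, -20, -4],
   [15, 30, 18, 3],
   [-6, -20, -24, -12, -2],
   [1, 5, 10, 10, 5, 1]]
  | 7 => [[1],
   [-7],
   [21, 6],
   [-35, -30, -5],
   [35, 60, 30, 4],
   [-21, -60, -60, -24, -3],
   [7, 30, 50, 40, 15, 2],
   [-1, -6, -15, -20, -15, -6, -1]]
  | 8 => [[1],
   [-8],
   [28, 7],
   [-56, -42, -6],
   [70, 105, 45, 5],
   [-56, -140, -120, -40, -4],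
   [28, 105, 150, 100, 30, 3],
   [-8, -42, -90, -100, -60, -18, -2],
   [1, 7, 21, 35, 35, 21, 7, 1]]
  | 9 => [[1],
   [-9],
   [36, 8],
   [-84, -56, -7],
   [126, 168, 63, 6],
   [-126, -280, -210, -60, -5],
   [84, 280, 350, 200, 50, 4],
   [-36, -168, -315, -300, -150, -36, -3],
   [9, 56, 147, 210, 175, 84, 21, 2],
   [-1, -8, -28, -56, -70, -56, -28, -8, -1]]
  | 10 => [[1],
   [-10],
   [45, 9],
   [-120, -72, -8],
   [210, 252, 84, 7],
   [-252, -504, -336, -84, -6],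
   [210, 630, 700, 350, 75, 5],
   [-120, -504, -840, -700, -300, -60, -4],
   [45, 252, 588, 735, 525, 210, 42, 3],
   [-10, -72, -224, -392, -420, -280, -112, -24, -2]]
  | _ => []

/-- the truncated tables -/
def tP (M m : ℕ) : List (List ℤ) := (tT m).take (M + 1)
/-- the truncated tables -/
def gP (M m : ℕ) : List (List ℤ) := (tS m).take (M + 1)

/-- positivity check -/
def chkPos (T : List (List ℤ)) (k : ℕ) : Bool :=
  ((List.range T.length).all fun i => decide (0 ≤ (T.getD i []).sum) &&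
      (decide (k < i) || decide (0 < (T.getD i []).sum))) && decide (k < T.length)

/-- everything that is checked for `M` -/
def chkM (M : ℕ) : Bool :=
  chkN M M (tP M M) (gP M M) && chkN M (M + 1) (tP M (M + 1)) (gP M (M + 1)) &&
  chkPos (tP M M) (M / 2) && chkPos (tP M (M + 1)) ((M + 1) / 2)

theorem all_chk : ((List.range 9).all fun k => chkM (k + 1)) = true := by decide +kernel

theorem pos_ofN (T : List (List ℤ)) (k : ℕ) (h : chkPos T k = true) : Pos k (RR T) := by
  unfold chkPos at h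
  simp only [Bool.and_eq_true, decide_eq_true_eq] at h
  exact pos_of T k h.1 h.2

theorem exists_solG {M m h e N : ℕ} (hM : 1 ≤ M) (hM9 : M ≤ 9) (he : 3 ≤ e) (hh : h = m + e)
    (hm1 : M * e < m) (hm2 : m ≤ (M + 1) * e) (hN : N ≤ M) (hN1 : 1 ≤ N) : ∃ b : ℕ → ℕ → ℚ,
    (∀ i ≤ N, ∃ r : ℚ[X], r.natDegree ≤ i ∧
      (∀ t ≤ N, b t i = ((1 - X) ^ (m - 2 * i) * r).coeff t) ∧ (i = N → r.eval 1 ≠ 0)) ∧
    (∀ t ≤ N, ∃ g : ℚ[X], g.natDegree ≤ t - 1 ∧
      ∀ i ≤ N, b t i = ((1 + X) ^ (h - 2 * t) * g).coeff i) := by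
  obtain ⟨c, hc⟩ : ∃ c, m = M * e + c := ⟨m - M * e, by omega⟩
  have hce : c ≤ e := by
    have : (M + 1) * e = M * e + e := by ring
    omega
  have hc1 : 1 ≤ c := by omega
  obtain ⟨a, ha⟩ : ∃ a, e = a + c := ⟨e - c, by omega⟩
  have hchk : chkM M = true := by
    have h0 := all_chk
    rw [List.all_eq_true] at h0
    have h1 := h0 (M - 1) (by rw [List.mem_range]; omega)
    rw [show M - 1 + 1 = M by omega] at h1
    exact h1
  unfold chkM at hchk
  simp only [Bool.and_eq_true] at hchk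
  obtain ⟨⟨⟨k1, k2⟩, k3⟩, k4⟩ := hchk
  have hG := ((good_ofN _ _ _ _ k1).pow a).mul ((good_ofN _ _ _ _ k2).pow c)
  have hP := ((pos_ofN _ _ k3).pow a).mul ((pos_ofN _ _ k4).pow c)
  have em : a * M + c * (M + 1) = m := by
    rw [hc, ha]; ring
  have eh : a * (M + 1) + c * (M + 1 + 1) = h := by
    rw [hh, hc, ha]; ring
  rw [em, eh] at hG
  have h3 : M ≤ a * (M / 2) + c * ((M + 1) / 2) := by
    have hMd : M / 2 + (M + 1) / 2 = M := by omega
    have hac : 3 ≤ a + c := by omega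
    interval_cases M
    all_goals simp only [Nat.reduceDiv, Nat.reduceAdd]
    all_goals omega
  have h2i : ∀ i ≤ N, 2 * i ≤ m := by
    intro i hi
    have : M * 3 ≤ M * e := Nat.mul_le_mul_left _ he
    omega
  have h2t : ∀ i ≤ N, 2 * i ≤ h := by
    intro i hi
    have := h2i i hi
    omega
  set R := RR (tP M M) ^ a * RR (tP M (M + 1)) ^ c with hR
  set G := RR (gP M M) ^ a * RR (gP M (M + 1)) ^ c with hGd
  refine ⟨fun t i => ((1 - X) ^ (m - 2 * i) * PowerSeries.coeff i R : ℚ[X]).coeff t, ?_, ?_⟩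
  · intro i hi
    refine ⟨PowerSeries.coeff i R, hG.dR i, fun t _ => rfl, fun hiN => ?_⟩
    exact (hP.2 i (by omega)).ne'
  · intro t ht
    refine ⟨PowerSeries.coeff t G, hG.dG t, fun i hi => ?_⟩
    have h1 := hG.cmp i (by omega) t (by omega)
    rw [shift (1 - X) _ U hQ1 U_spec m i R (h2i i hi),
      shift (1 + X) _ V hQ2 V_spec h t G (h2t t ht), Polynomial.coeff_coe,
      Polynomial.coeff_coe] at h1
    exact h1

theorem coreG {M m h e N : ℕ} (hM : 1 ≤ M) (hM9 : M ≤ 9) (he : 3 ≤ e) (hh : h = m + e)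
    (hm1 : M * e < m) (hm2 : m ≤ (M + 1) * e) (hN : N ≤ M) (hN1 : 1 ≤ N) (b : ℕ → ℕ → ℚ)
    (h1 : ∀ i ≤ N, ∃ r : Polynomial ℚ, r.natDegree ≤ i ∧
      (∀ t ≤ N, b t i = ((1 - X) ^ (m - 2 * i) * r).coeff t) ∧ (i = N → r.eval 1 = 0))
    (h2 : ∀ t ≤ N, ∃ g : Polynomial ℚ, g.natDegree ≤ t - 1 ∧
      ∀ i ≤ N, b t i = ((1 + X) ^ (h - 2 * t) * g).coeff i) : b 0 0 = 0 := by
  obtain ⟨b', h1', h2'⟩ := exists_solG hM hM9 he hh hm1 hm2 hN hN1
  exact Pool.Agent.E8helper64.AX.core_of_sol b b' h1 h2 h1' h2'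

end

end Pool.Agent.E8helper62.AXG
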